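import Pool.Agent.helper74.NL.Spec

/-!
# Project nl: CTB, integrability, bound, continuity and decay of the Cauchy transform
-/

set_option autoImplicit false

open Complex Metric Set Filter Topology MeasureTheory MPS Pool.Agent.helper98.ILF

noncomputable section

namespace NLF

theorem CTB_dom (hMI : MI_stmt) (b : ℂ) (s : ℝ) (hs : 0 ≤ s) :
    Integrable ((ball b s).indicator (fun z : ℂ => 1 / ‖z - b‖)) ∧
      ∫ z : ℂ, (ball b s).indicator (fun z : ℂ => 1 / ‖z - b‖) z = 2 * Real.pi * s := by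
  obtain ⟨h1, h2⟩ := hMI.2 b s hs
  refine ⟨(integrable_indicator_iff measurableSet_ball).2 h1, ?_⟩
  rw [integral_indicator measurableSet_ball, h2]

theorem CTB_norm (μ : ℂ → ℂ) (hb : ∀ z, ‖μ z‖ ≤ 1) (hs : ∀ z, μ z ≠ 0 → ‖z‖ < 4) (b z : ℂ) :
    ‖μ z / (z - b)‖ ≤ (ball b (‖b‖ + 4)).indicator (fun z : ℂ => 1 / ‖z - b‖) z := by
  by_cases h0 : μ z = 0
  · rw [h0, zero_div, norm_zero]
    exact indicator_nonneg (fun z _ => by positivity) z
  · have h1 : z ∈ ball b (‖b‖ + 4) := by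
      rw [mem_ball, dist_eq_norm]
      have := norm_sub_le z b
      have := hs z h0
      linarith
    rw [indicator_of_mem h1, norm_div]
    exact div_le_div_of_nonneg_right (hb z) (norm_nonneg _)

theorem CTB_int (hMI : MI_stmt) (μ : ℂ → ℂ) (hm : Measurable μ) (hb : ∀ z, ‖μ z‖ ≤ 1)
    (hs : ∀ z, μ z ≠ 0 → ‖z‖ < 4) (b : ℂ) : Integrable (fun z => μ z / (z - b)) := by
  have hn : 0 ≤ ‖b‖ + 4 := by positivity
  refine Integrable.mono' (CTB_dom hMI b (‖b‖ + 4) hn).1
    (hm.div (measurable_id.sub_const b)).aestronglyMeasurable ?_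
  exact Eventually.of_forall fun z => CTB_norm μ hb hs b z

theorem CTB_far (μ : ℂ → ℂ) (hb : ∀ z, ‖μ z‖ ≤ 1)
    (hs : ∀ z, μ z ≠ 0 → ‖z‖ < 4) (b : ℂ) (hb4 : 4 < ‖b‖) :
    ‖CT μ b‖ ≤ 16 * Real.pi / (‖b‖ - 4) := by
  have hpos : 0 < ‖b‖ - 4 := by linarith
  have h1 : CT μ b = ∫ z in ball (0 : ℂ) 4, μ z / (z - b) := by
    unfold CT
    refine (setIntegral_eq_integral_of_forall_compl_eq_zero ?_).symm
    intro z hz
    by_cases h0 : μ z = 0
    · rw [h0, zero_div]
    · exact absurd (by rw [mem_ball, dist_zero_right]; exact hs z h0) hz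
  rw [h1]
  have h2 : ‖∫ z in ball (0 : ℂ) 4, μ z / (z - b)‖ ≤
      (1 / (‖b‖ - 4)) * (volume : Measure ℂ).real (ball (0 : ℂ) 4) := by
    refine norm_setIntegral_le_of_norm_le_const measure_ball_lt_top ?_
    intro z hz
    rw [mem_ball, dist_zero_right] at hz
    rw [norm_div]
    have h3 : ‖b‖ - 4 ≤ ‖z - b‖ := by
      have := norm_sub_norm_le b z
      rw [norm_sub_rev] at this
      linarith
    exact div_le_div₀ zero_le_one (hb z) hpos h3
  refine h2.trans (le_of_eq ?_)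
  have h4 : (volume : Measure ℂ).real (ball 0 4) = 16 * Real.pi := by
    rw [Measure.real, Complex.volume_ball]
    rw [ENNReal.toReal_mul, ENNReal.toReal_pow, ENNReal.toReal_ofReal (by norm_num)]
    simp
    ring
  rw [h4]
  field_simp

theorem CTB_bound (hMI : MI_stmt) (μ : ℂ → ℂ) (hb : ∀ z, ‖μ z‖ ≤ 1)
    (hs : ∀ z, μ z ≠ 0 → ‖z‖ < 4) (b : ℂ) : ‖CT μ b‖ ≤ 80 := by
  have hpi := Real.pi_lt_d2
  have hpi0 := Real.pi_pos
  rcases le_or_gt ‖b‖ 8 with h8 | h8
  · have hn : 0 ≤ ‖b‖ + 4 := by positivity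
    have h1 : ‖CT μ b‖ ≤ ∫ z : ℂ, (ball b (‖b‖ + 4)).indicator (fun z : ℂ => 1 / ‖z - b‖) z := by
      unfold CT
      exact norm_integral_le_of_norm_le (CTB_dom hMI b (‖b‖ + 4) hn).1
        (Eventually.of_forall fun z => CTB_norm μ hb hs b z)
    rw [(CTB_dom hMI b (‖b‖ + 4) hn).2] at h1
    nlinarith [norm_nonneg b]
  · have h1 := CTB_far μ hb hs b (by linarith)
    have h2 : 16 * Real.pi / (‖b‖ - 4) ≤ 16 * Real.pi / 4 :=
      div_le_div_of_nonneg_left (by positivity) (by norm_num) (by linarith)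
    linarith

/-- the regularised kernel -/
def CTB_ker (ε : ℝ) (w : ℂ) : ℂ := (starRingEnd ℂ) w / (((max ‖w‖ ε) ^ 2 : ℝ) : ℂ)

theorem CTB_ker_cont (ε : ℝ) (hε : 0 < ε) : Continuous (CTB_ker ε) := by
  unfold CTB_ker
  refine Continuous.div Complex.continuous_conj ?_ ?_
  · exact Complex.continuous_ofReal.comp ((continuous_norm.max continuous_const).pow 2)
  · intro w
    have h1 : 0 < max ‖w‖ ε := lt_max_of_lt_right hε
    exact Complex.ofReal_ne_zero.2 (pow_ne_zero 2 h1.ne')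

theorem CTB_ker_norm (ε : ℝ) (hε : 0 < ε) (w : ℂ) :
    ‖CTB_ker ε w‖ ≤ 1 / ε ∧ (w ≠ 0 → ‖CTB_ker ε w‖ ≤ 1 / ‖w‖) ∧
      (ε ≤ ‖w‖ → CTB_ker ε w = 1 / w) := by
  have hm : 0 < max ‖w‖ ε := lt_max_of_lt_right hε
  have h1 : ‖CTB_ker ε w‖ = ‖w‖ / (max ‖w‖ ε) ^ 2 := by
    unfold CTB_ker
    rw [norm_div, RCLike.norm_conj, Complex.norm_real, Real.norm_eq_abs,
      abs_of_nonneg (sq_nonneg _)]
  have h2 : ‖w‖ / (max ‖w‖ ε) ^ 2 ≤ 1 / max ‖w‖ ε := by
    rw [div_le_div_iff₀ (pow_pos hm 2) hm, one_mul, sq]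
    exact mul_le_mul_of_nonneg_right (le_max_left _ _) hm.le
  refine ⟨?_, ?_, ?_⟩
  · rw [h1]
    exact h2.trans (one_div_le_one_div_of_le hε (le_max_right _ _))
  · intro hw
    rw [h1]
    exact h2.trans (one_div_le_one_div_of_le (norm_pos_iff.2 hw) (le_max_left _ _))
  · intro hw
    have hw0 : w ≠ 0 := by
      rintro rfl
      rw [norm_zero] at hw
      linarith
    unfold CTB_ker
    rw [max_eq_left hw, ← Complex.normSq_eq_norm_sq, div_eq_div_iff
      (Complex.ofReal_ne_zero.2 (Complex.normSq_pos.2 hw0).ne') hw0, one_mul]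
    rw [Complex.normSq_eq_conj_mul_self]

theorem CTB_approx (hMI : MI_stmt) (μ : ℂ → ℂ) (hm : Measurable μ) (hb : ∀ z, ‖μ z‖ ≤ 1)
    (hs : ∀ z, μ z ≠ 0 → ‖z‖ < 4) (ε : ℝ) (hε : 0 < ε) :
    Continuous (fun b => ∫ z : ℂ, μ z * CTB_ker ε (z - b)) ∧
      ∀ b, ‖CT μ b - ∫ z : ℂ, μ z * CTB_ker ε (z - b)‖ ≤ 4 * Real.pi * ε := by
  have hkm : Measurable (CTB_ker ε) := (CTB_ker_cont ε hε).measurable
  have hmeas : ∀ b : ℂ, AEStronglyMeasurable (fun z => μ z * CTB_ker ε (z - b)) := by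
    intro b
    exact (hm.mul (hkm.comp (measurable_id.sub_const b))).aestronglyMeasurable
  have hbint : Integrable ((ball (0 : ℂ) 4).indicator (fun _ : ℂ => 1 / ε)) :=
    (integrable_indicator_iff measurableSet_ball).2
      (integrableOn_const (by exact measure_ball_lt_top.ne) (by simp))
  have hbd : ∀ b z : ℂ, ‖μ z * CTB_ker ε (z - b)‖ ≤
      (ball (0 : ℂ) 4).indicator (fun _ : ℂ => 1 / ε) z := by
    intro b z
    by_cases h0 : μ z = 0
    · rw [h0, zero_mul, norm_zero]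
      exact indicator_nonneg (fun z _ => by positivity) z
    · have h1 : z ∈ ball (0 : ℂ) 4 := by
        rw [mem_ball, dist_zero_right]
        exact hs z h0
      rw [indicator_of_mem h1, norm_mul]
      calc ‖μ z‖ * ‖CTB_ker ε (z - b)‖ ≤ 1 * (1 / ε) :=
            mul_le_mul (hb z) (CTB_ker_norm ε hε _).1 (norm_nonneg _) zero_le_one
        _ = 1 / ε := one_mul _
  refine ⟨?_, ?_⟩
  · refine continuous_of_dominated hmeas (fun b => Eventually.of_forall fun z => hbd b z) hbint ?_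
    refine Eventually.of_forall fun z => ?_
    exact continuous_const.mul ((CTB_ker_cont ε hε).comp (continuous_const.sub continuous_id))
  · intro b
    have hi1 := CTB_int hMI μ hm hb hs b
    have hi2 : Integrable (fun z => μ z * CTB_ker ε (z - b)) :=
      Integrable.mono' hbint (hmeas b) (Eventually.of_forall fun z => hbd b z)
    unfold CT
    rw [← integral_sub hi1 hi2]
    have hdom := CTB_dom hMI b ε hε.le
    have h1 : ∀ z : ℂ, ‖μ z / (z - b) - μ z * CTB_ker ε (z - b)‖ ≤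
        2 * (ball b ε).indicator (fun z : ℂ => 1 / ‖z - b‖) z := by
      intro z
      by_cases hz : z ∈ ball b ε
      · rw [indicator_of_mem hz]
        by_cases hzb : z - b = 0
        · rw [hzb]
          unfold CTB_ker
          simp
        · have h2 := (CTB_ker_norm ε hε (z - b)).2.1 hzb
          have h3 : μ z / (z - b) - μ z * CTB_ker ε (z - b) =
              μ z * (1 / (z - b) - CTB_ker ε (z - b)) := by ring
          rw [h3, norm_mul]
          have h4 : ‖1 / (z - b) - CTB_ker ε (z - b)‖ ≤ 2 * (1 / ‖z - b‖) := by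
            refine (norm_sub_le _ _).trans ?_
            rw [norm_div, norm_one]
            linarith
          calc ‖μ z‖ * ‖1 / (z - b) - CTB_ker ε (z - b)‖ ≤ 1 * (2 * (1 / ‖z - b‖)) :=
                mul_le_mul (hb z) h4 (norm_nonneg _) zero_le_one
            _ = 2 * (1 / ‖z - b‖) := one_mul _
      · rw [indicator_of_notMem hz, mul_zero]
        rw [mem_ball, not_lt, dist_eq_norm] at hz
        rw [(CTB_ker_norm ε hε (z - b)).2.2 hz]
        have h3 : μ z / (z - b) - μ z * (1 / (z - b)) = 0 := by ring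
        rw [h3, norm_zero]
    have h2 := norm_integral_le_of_norm_le (hdom.1.const_mul 2) (Eventually.of_forall h1)
    rw [integral_const_mul, hdom.2] at h2
    refine h2.trans (le_of_eq ?_)
    ring

theorem CTB (hMI : MI_stmt) : CTB_stmt := by
  intro μ hm hb hs
  refine ⟨CTB_int hMI μ hm hb hs, CTB_bound hMI μ hb hs, ?_, ?_⟩
  · refine continuous_of_uniform_approx_of_continuous ?_
    intro u hu
    obtain ⟨η, hη, hηu⟩ := Metric.mem_uniformity_dist.1 hu
    have hpi0 := Real.pi_pos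
    have hε : 0 < η / (8 * Real.pi) := by positivity
    obtain ⟨h1, h2⟩ := CTB_approx hMI μ hm hb hs (η / (8 * Real.pi)) hε
    refine ⟨_, h1, fun b => hηu ?_⟩
    rw [dist_eq_norm]
    refine (h2 b).trans_lt ?_
    have h3 : 4 * Real.pi * (η / (8 * Real.pi)) = η / 2 := by
      field_simp
      ring
    rw [h3]
    linarith
  · rw [tendsto_zero_iff_norm_tendsto_zero]
    have h1 : Tendsto (fun b : ℂ => 16 * Real.pi / (‖b‖ - 4)) (Bornology.cobounded ℂ) (𝓝 0) := by
      refine Tendsto.div_atTop tendsto_const_nhds ?_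
      exact tendsto_atTop_add_const_right _ (-4) tendsto_norm_cobounded_atTop
    refine squeeze_zero' (Eventually.of_forall fun b => norm_nonneg _) ?_ h1
    filter_upwards [tendsto_norm_cobounded_atTop.eventually (eventually_gt_atTop (4 : ℝ))] with b hb4
    exact CTB_far μ hb hs b hb4

end NLF
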